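import Pool.Agent.Helper69.MC.W.FRW

/-!
# Project MC (MP_9583f0_gt), module BUB: no bubbles
-/

set_option autoImplicit false

namespace Pool.Agent.Helper69.MC.WB

open Set Topology Filter MeasureTheory
open Pool.Agent.Helper31.CY Pool.Agent.Helper69.MF Pool.Agent.Helper69.MC

theorem sl_open (h : ℝ) : IsOpen (Sl h) := by
  have hc : Continuous fun x : E3 => x 2 := by fun_prop
  exact (isOpen_lt continuous_const hc).inter (isOpen_lt hc continuous_const)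

theorem sl_convex (h : ℝ) : Convex ℝ (Sl h) := by
  intro x hx y hy a b ha hb hab
  obtain ⟨hx1, hx2⟩ := hx
  obtain ⟨hy1, hy2⟩ := hy
  have he : (a • x + b • y) 2 = a * x 2 + b * y 2 := by simp
  refine ⟨?_, ?_⟩
  · show 0 < (a • x + b • y) 2
    rw [he]
    rcases ha.eq_or_lt with h0 | h0
    · have : b = 1 := by linarith
      subst this
      rw [← h0]
      linarith
    · nlinarith [mul_pos h0 hx1, mul_nonneg hb hy1.le]
  · show (a • x + b • y) 2 < h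
    rw [he]
    rcases ha.eq_or_lt with h0 | h0
    · have : b = 1 := by linarith
      subst this
      rw [← h0]
      linarith
    · nlinarith [mul_pos h0 (sub_pos.mpr hx2), mul_nonneg hb (sub_nonneg.mpr hy2.le)]

theorem sl_disj (K0 K1 : Set (ℝ × ℝ)) (h : ℝ) : Disjoint (Sl h) (Gm K0 K1 h) := by
  rw [Set.disjoint_left]
  rintro x ⟨hx1, hx2⟩ (⟨_, hx⟩ | ⟨_, hx⟩)
  · rw [hx] at hx1
    exact lt_irrefl _ hx1
  · rw [hx] at hx2
    exact lt_irrefl _ hx2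

theorem pt2 (a b c : ℝ) : (pt a b c) 2 = c := by simp [pt]

theorem pt0 (a b c : ℝ) : (pt a b c) 0 = a := by simp [pt]

/-- the frontier of the slab is unbounded -/
theorem sl_clos (h : ℝ) (h0 : 0 < h) (a : ℝ) : pt a 0 0 ∈ closure (Sl h) := by
  rw [Metric.mem_closure_iff]
  intro ε hε
  have ht : 0 < min (ε / 2) (h / 2) := lt_min (by linarith) (by linarith)
  refine ⟨pt a 0 (min (ε / 2) (h / 2)), ⟨?_, ?_⟩, ?_⟩
  · rw [pt2]
    exact ht
  · rw [pt2]
    have := min_le_right (ε / 2) (h / 2)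
    linarith
  · rw [EuclideanSpace.dist_eq, Fin.sum_univ_three]
    have e0 : dist ((pt a 0 0) 0) ((pt a 0 (min (ε / 2) (h / 2))) 0) = 0 := by
      rw [pt0, pt0, dist_self]
    have e1 : dist ((pt a 0 0) 1) ((pt a 0 (min (ε / 2) (h / 2))) 1) = 0 := by
      simp [pt]
    have e2 : dist ((pt a 0 0) 2) ((pt a 0 (min (ε / 2) (h / 2))) 2) = min (ε / 2) (h / 2) := by
      rw [pt2, pt2, Real.dist_eq, zero_sub, abs_neg, abs_of_pos ht]
    rw [e0, e1, e2]
    have e3 : (0 : ℝ) ^ 2 + 0 ^ 2 + min (ε / 2) (h / 2) ^ 2 = min (ε / 2) (h / 2) ^ 2 := by ring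
    rw [e3, Real.sqrt_sq ht.le]
    have := min_le_left (ε / 2) (h / 2)
    linarith

theorem hBUW : StCPT → StLDW → StLCC → StFRG → StRPL → StCNE → StLSG → StBUW := by
  intro hCPT hLDC hLCC hFRG hRPL hCNE hLSG K0 K1 h 𝒞 S C B hB hfr
  have hScl : IsClosed S := C.mps.cpt.isClosed
  obtain ⟨cA, cB, cC, cD⟩ := hCPT h S hScl
  obtain ⟨hBo, hBp, hBs, hBf, hBc⟩ := cB B hB
  obtain ⟨z, hz⟩ := hBp.nonempty
  have hBU : B ⊆ Sl h := fun x hx => (hBs hx).1
  have hUo := sl_open h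
  have hUΓ : ∀ x ∈ Sl h, x ∉ Gm K0 K1 h := fun x hx hx' =>
    Set.disjoint_left.mp (sl_disj K0 K1 h) hx hx'
  -- (1) a point of the frontier in the slab
  obtain ⟨p, hpf, hpU⟩ : ∃ p ∈ frontier B, p ∈ Sl h := by
    by_contra hcon
    push Not at hcon
    have hsub : Sl h ⊆ B := by
      apply (sl_convex h).isPreconnected.subset_of_closure_inter_subset hBo ⟨z, hBU hz, hz⟩
      rintro x ⟨hx1, hx2⟩
      by_contra hx3
      have : x ∈ frontier B := by
        rw [hBo.frontier_eq]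
        exact ⟨hx1, hx3⟩
      exact hcon x this hx2
    obtain ⟨R, hR⟩ := C.mps.cpt.isBounded.subset_closedBall (0 : E3)
    have hm : pt (|R| + 1) 0 0 ∈ frontier B := by
      rw [hBo.frontier_eq]
      refine ⟨closure_mono hsub (sl_clos h C.h0 _), fun hx => ?_⟩
      have := (hBU hx).1
      rw [pt2] at this
      exact lt_irrefl _ this
    have h1 := hR (hfr hm)
    rw [mem_closedBall_zero_iff] at h1
    have h2 : ‖(pt (|R| + 1) 0 0) 0‖ ≤ ‖pt (|R| + 1) 0 0‖ := PiLp.norm_apply_le _ 0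
    rw [pt0, Real.norm_eq_abs, abs_of_pos (by positivity)] at h2
    have := le_abs_self R
    linarith
  have hpS : p ∈ S := hfr hpf
  have hpΓ : p ∉ Gm K0 K1 h := hUΓ p hpU
  -- (2) the local model at p
  obtain ⟨hY, hT, hP, aP, aY, aT, _⟩ := hCNE
  obtain ⟨m, v, hm, hv, hmod⟩ : ∃ (m : ℕ) (v : Fin m → E3), 2 ≤ m ∧ Adj v ∧ ModelAt S (Cn v) p := by
    rcases C.mps.int p hpS hpΓ with h1 | h1 | h1
    · exact ⟨2, vP, le_refl _, aP, hRPL S p hpS h1⟩
    · exact ⟨3, vY, by norm_num, aY, by rw [hY]; exact h1⟩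
    · exact ⟨4, tv, by norm_num, aT, by rw [hT]; exact h1⟩
  obtain ⟨ρ0, L, ⟨hρ0, hLo, hLp, hLS, hLd⟩, hadj⟩ := hLCC S m v p (by omega) hv hmod
  obtain ⟨ρU, hρU, hballU⟩ := Metric.isOpen_iff.mp hUo p hpU
  have hρ : 0 < min ρ0 ρU := lt_min hρ0 hρU
  have hsub0 : Metric.ball p (min ρ0 ρU) ⊆ Metric.ball p ρ0 :=
    Metric.ball_subset_ball (min_le_left _ _)
  have hsubU : Metric.ball p (min ρ0 ρU) ⊆ Sl h :=
    (Metric.ball_subset_ball (min_le_right _ _)).trans hballU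
  have hpc : p ∈ closure B := frontier_subset_closure hpf
  obtain ⟨b, hbB, hbp⟩ := Metric.mem_closure_iff.mp hpc _ hρ
  have hbball : b ∈ Metric.ball p (min ρ0 ρU) := by
    rw [Metric.mem_ball, dist_comm]
    exact hbp
  obtain ⟨i, hbi⟩ := (hLS b (hsub0 hbball)).mp (hBs hbB).2
  have hLiB : Metric.ball p (min ρ0 ρU) ∩ L i ⊆ B := by
    apply hBc _ (hLp _ hρ (min_le_left _ _) i).isConnected.isPreconnected
    · rintro x ⟨hx1, hx2⟩
      exact ⟨hsubU hx1, (hLS x (hsub0 hx1)).mpr ⟨i, hx2⟩⟩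
    · exact ⟨b, hbB, hbball, hbi⟩
  obtain ⟨j, hij⟩ : ∃ j : Fin m, i ≠ j := by
    have : Nontrivial (Fin m) := Fin.nontrivial_iff_two_le.mpr hm
    obtain ⟨j, hj⟩ := exists_ne i
    exact ⟨j, hj.symm⟩
  obtain ⟨q, hqS, hqp, hqN, hqr⟩ := hadj i j hij (min ρ0 ρU / 2) (by linarith)
  have hqU : q ∈ Sl h := hsubU (by rw [Metric.mem_ball]; linarith)
  have hqc : q ∈ closure B := by
    rw [Metric.mem_closure_iff]
    intro ε hε
    obtain ⟨x, hx1, hx2⟩ := (hqr (min ε (min ρ0 ρU / 2)) (lt_min hε (by linarith))).1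
    rw [Metric.mem_ball] at hx1
    refine ⟨x, hLiB ⟨?_, hx2⟩, ?_⟩
    · rw [Metric.mem_ball]
      have h1 := dist_triangle x q p
      have h2 := min_le_right ε (min ρ0 ρU / 2)
      linarith
    · rw [dist_comm]
      exact lt_of_lt_of_le hx1 (min_le_left _ _)
  have hqΓ : q ∉ Gm K0 K1 h := hUΓ q hqU
  have hqreg : RegP S q := hFRG S _ C.mps q hqS hqΓ hqN
  have hqmod : ModelAt S (Cn vP) q := hRPL S q hqS hqreg
  -- (3) surgery
  obtain ⟨ρ1, L', ⟨hρ1, hLo', hLp', hLS', hLd'⟩, hb1U, hsep⟩ :=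
    hLDC K0 K1 h 𝒞 S C q hqS hqΓ 2 vP (by norm_num) aP hqmod
  obtain ⟨x0, hx0B, hx0q⟩ := Metric.mem_closure_iff.mp hqc _ hρ1
  have hx0b : x0 ∈ Metric.ball q ρ1 := by
    rw [Metric.mem_ball, dist_comm]
    exact hx0q
  obtain ⟨a, hx0a⟩ := (hLS' x0 hx0b).mp (hBs hx0B).2
  have hsub1 : ∀ c : Fin 2, Metric.ball q ρ1 ∩ L' c ⊆ Sl h \ S := by
    rintro c x ⟨hx1, hx2⟩
    exact ⟨hb1U hx1, (hLS' x hx1).mpr ⟨c, hx2⟩⟩
  have hLaB : Metric.ball q ρ1 ∩ L' a ⊆ B := by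
    apply hBc _ (hLp' _ hρ1 le_rfl a).isConnected.isPreconnected (hsub1 a)
    exact ⟨x0, hx0B, hx0b, hx0a⟩
  obtain ⟨γ, hγ, hγS⟩ := WF.ess_loop C.ess q hqS hqΓ (ρ1 / 2) (by linarith)
  have hbb : Metric.ball q (ρ1 / 2) ⊆ Metric.ball q ρ1 := Metric.ball_subset_ball (by linarith)
  obtain ⟨γ', hγ1, hγ2⟩ := hLSG (Gm K0 K1 h) (Sl h) S
    (closure B ∪ (Metric.closedBall q (ρ1 / 2) ∩ S)) (B ∪ Metric.ball q ρ1) γ
    (sl_convex h) (sl_disj K0 K1 h)
    (isClosed_closure.union (Metric.isClosed_closedBall.inter hScl))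
    (hBo.union Metric.isOpen_ball) (Set.union_subset hBU hb1U) (C.hc.1 γ hγ)
    (fun s hs => Or.inr ⟨Metric.ball_subset_closedBall (hγS s hs), hs⟩)
    (by
      rintro s (hs | hs)
      · by_cases hsB : γ s ∈ B
        · exact Or.inl hsB
        · have : γ s ∈ frontier B := by
            rw [hBo.frontier_eq]
            exact ⟨hs, hsB⟩
          exact Or.inr (hbb (hγS s (hfr this)))
      · exact Or.inr (hbb (hγS s hs.2)))
    (by
      have key : ∀ x, x ∈ B ∪ Metric.ball q ρ1 →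
          x ∉ closure B ∪ (Metric.closedBall q (ρ1 / 2) ∩ S) → x ∉ S →
          ∃ c : Fin 2, c ≠ a ∧ x ∈ Metric.ball q ρ1 ∩ L' c := by
        intro x hxQ hxP hxS
        have hxB : x ∉ B := fun hx => hxP (Or.inl (subset_closure hx))
        have hxb : x ∈ Metric.ball q ρ1 := hxQ.resolve_left hxB
        obtain ⟨c, hc⟩ := (hLS' x hxb).mp hxS
        refine ⟨c, ?_, hxb, hc⟩
        rintro rfl
        exact hxB (hLaB ⟨hxb, hc⟩)
      intro x y hxQ hxP hxS hyQ hyP hyS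
      obtain ⟨c, hc, hx⟩ := key x hxQ hxP hxS
      obtain ⟨c', hc', hy⟩ := key y hyQ hyP hyS
      have hcc : c = c' := by
        rcases a with ⟨a, ha⟩
        rcases c with ⟨c, hc1⟩
        rcases c' with ⟨c', hc2⟩
        simp only [ne_eq, Fin.mk.injEq] at hc hc' ⊢
        omega
      subst hcc
      exact ((hLp' _ hρ1 le_rfl c).joinedIn x hx y hy).mono (hsub1 c))
    ⟨z, hBs hz⟩
  obtain ⟨s, hs⟩ := C.ess.1 γ' (C.hc.2 γ hγ γ' hγ1)
  exact hγ2 s hs

end Pool.Agent.Helper69.MC.WB
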