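import Pool.Agent.Helper69.MC.StW

/-!
# Project MC (MP_9583f0_gt), module CCL (the other components)
-/

set_option autoImplicit false

open Set Topology Filter MeasureTheory
open Pool.Agent.Helper31.CY Pool.Agent.Helper69.MF Pool.Agent.Helper69.MC

namespace Pool.Agent.Helper69.MC.WC

private lemma pt_zero (a b c : ℝ) : pt a b c 0 = a := by simp [pt]

private lemma pt_one (a b c : ℝ) : pt a b c 1 = b := by simp [pt]

private lemma pt_two (a b c : ℝ) : pt a b c 2 = c := by simp [pt]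

private lemma pt_eta (x : E3) : pt (x 0) (x 1) (x 2) = x := by
  ext i
  fin_cases i <;> simp [pt]

private lemma dist_pt (a b c c' : ℝ) : dist (pt a b c) (pt a b c') = |c - c'| := by
  rw [EuclideanSpace.dist_eq, Fin.sum_univ_three, pt_zero, pt_one, pt_two, pt_zero, pt_one, pt_two,
    dist_self, dist_self, Real.dist_eq]
  simp [Real.sqrt_sq_eq_abs]

private lemma pt_cont (c : ℝ) : Continuous (fun w : ℝ × ℝ => pt w.1 w.2 c) := by
  unfold pt
  fun_prop

private lemma sl_convex (h : ℝ) : Convex ℝ (Sl h) := by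
  intro x hx y hy a b ha hb hab
  obtain ⟨hx0, hx1⟩ := hx
  obtain ⟨hy0, hy1⟩ := hy
  have e : (a • x + b • y) 2 = a * x 2 + b * y 2 := by simp
  refine ⟨?_, ?_⟩
  · show 0 < (a • x + b • y) 2
    rw [e]
    rcases ha.lt_or_eq with ha' | ha'
    · have := mul_pos ha' hx0
      have := mul_nonneg hb hy0.le
      linarith
    · have hb1 : b = 1 := by linarith
      rw [← ha', hb1]; linarith
  · show (a • x + b • y) 2 < h
    rw [e]
    rcases ha.lt_or_eq with ha' | ha'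
    · nlinarith [mul_lt_mul_of_pos_left hx1 ha', mul_le_mul_of_nonneg_left hy1.le hb]
    · have hb1 : b = 1 := by linarith
      rw [← ha', hb1]; linarith

private lemma near (h : ℝ) (h0 : 0 < h) (x : E3) (hx0 : 0 ≤ x 2) (hx1 : x 2 ≤ h) (r : ℝ)
    (hr : 0 < r) : ∃ y : E3, y ∈ Sl h ∧ dist y x < r ∧ y 0 = x 0 ∧ y 1 = x 1 := by
  obtain ⟨t, ht0, ht1, htr⟩ : ∃ t : ℝ, 0 < t ∧ t ≤ 1 ∧ t * h ≤ r := by
    refine ⟨min 1 (r / h), lt_min one_pos (div_pos hr h0), min_le_left _ _, ?_⟩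
    calc min 1 (r / h) * h ≤ (r / h) * h := by
          apply mul_le_mul_of_nonneg_right (min_le_right _ _) h0.le
      _ = r := by field_simp
  have hth : 0 < t * h := mul_pos ht0 h0
  have htx : 0 ≤ t * x 2 := mul_nonneg ht0.le hx0
  have htx' : t * x 2 ≤ t * h := mul_le_mul_of_nonneg_left hx1 ht0.le
  have h1 : 0 ≤ (1 - t) * x 2 := mul_nonneg (by linarith) hx0
  have h2 : (1 - t) * x 2 ≤ (1 - t) * h := mul_le_mul_of_nonneg_left hx1 (by linarith)
  refine ⟨pt (x 0) (x 1) (x 2 + t * (h / 2 - x 2)), ⟨?_, ?_⟩, ?_, pt_zero _ _ _, pt_one _ _ _⟩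
  · rw [pt_two]; nlinarith
  · rw [pt_two]; nlinarith
  · have h2 := dist_pt (x 0) (x 1) (x 2 + t * (h / 2 - x 2)) (x 2)
    rw [pt_eta] at h2
    rw [h2, abs_lt]
    constructor <;> nlinarith

/-- `B` contains the half ball at `x` -/
private def Nb (h : ℝ) (S : Set E3) (x : E3) (B : Set E3) : Prop :=
  Cmp h S B ∧ ∃ r : ℝ, 0 < r ∧ ∀ y ∈ Sl h, dist y x < r → y ∈ B

private lemma nb_open (h : ℝ) (S B : Set E3) : IsOpen {x | Nb h S x B} := by
  rw [Metric.isOpen_iff]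
  rintro x ⟨hB, r, hr, hx⟩
  refine ⟨r / 2, half_pos hr, fun x' hx' => ⟨hB, r / 2, half_pos hr, fun y hy hyx => hx y hy ?_⟩⟩
  rw [Metric.mem_ball] at hx'
  linarith [dist_triangle y x' x]

private lemma nb_exists (hcpt : StCPT) (h : ℝ) (h0 : 0 < h) (S : Set E3) (hS : IsClosed S) (x : E3)
    (hx0 : 0 ≤ x 2) (hx1 : x 2 ≤ h) (hxS : x ∉ S) : ∃ B, Nb h S x B := by
  obtain ⟨h1, h2, h3, h4⟩ := hcpt h S hS
  obtain ⟨ρ, hρ, hb⟩ := Metric.isOpen_iff.1 hS.isOpen_compl x hxS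
  obtain ⟨y, hy, hyx, -, -⟩ := near h h0 x hx0 hx1 ρ hρ
  have hyS : y ∉ S := hb hyx
  obtain ⟨B, hB, hyB⟩ := h1 y ⟨hy, hyS⟩
  refine ⟨B, hB, ρ, hρ, fun z hz hzx => ?_⟩
  have hC : Metric.ball x ρ ∩ Sl h ⊆ B := by
    refine (h2 B hB).2.2.2.2 _ ?_ ?_ ⟨y, hyB, hyx, hy⟩
    · exact ((convex_ball x ρ).inter (sl_convex h)).isPreconnected
    · rintro w ⟨hw1, hw2⟩
      exact ⟨hw2, hb hw1⟩
  exact hC ⟨hzx, hz⟩

private lemma nb_unique (hcpt : StCPT) (h : ℝ) (h0 : 0 < h) (S : Set E3) (hS : IsClosed S) (x : E3)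
    (hx0 : 0 ≤ x 2) (hx1 : x 2 ≤ h) (B B' : Set E3) (hB : Nb h S x B) (hB' : Nb h S x B') :
    B = B' := by
  obtain ⟨h1, h2, h3, h4⟩ := hcpt h S hS
  obtain ⟨c, r, hr, hb⟩ := hB
  obtain ⟨c', r', hr', hb'⟩ := hB'
  obtain ⟨y, hy, hyx, -, -⟩ := near h h0 x hx0 hx1 (min r r') (lt_min hr hr')
  exact h3 B B' c c' ⟨y, hb y hy (hyx.trans_le (min_le_left _ _)),
    hb' y hy (hyx.trans_le (min_le_right _ _))⟩

private lemma nb_const (hcpt : StCPT) (h : ℝ) (h0 : 0 < h) (S : Set E3) (hS : IsClosed S)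
    (T : Set (ℝ × ℝ)) (hT : IsPreconnected T) (c : ℝ) (hc0 : 0 ≤ c) (hc1 : c ≤ h)
    (hTS : ∀ w ∈ T, pt w.1 w.2 c ∉ S) (w0 : ℝ × ℝ) (hw0 : w0 ∈ T) (B : Set E3)
    (hB : Nb h S (pt w0.1 w0.2 c) B) : ∀ w ∈ T, Nb h S (pt w.1 w.2 c) B := by
  have hTi : IsPreconnected ((fun w : ℝ × ℝ => pt w.1 w.2 c) '' T) :=
    hT.image _ (pt_cont c).continuousOn
  by_contra hcon
  push Not at hcon
  obtain ⟨w1, hw1, hn⟩ := hcon
  have hex : ∀ w ∈ T, ∃ B', Nb h S (pt w.1 w.2 c) B' := fun w hw =>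
    nb_exists hcpt h h0 S hS _ (by rw [pt_two]; exact hc0) (by rw [pt_two]; exact hc1) (hTS w hw)
  have hO2 : IsOpen (⋃ B' ∈ {B' : Set E3 | B' ≠ B}, {x | Nb h S x B'}) :=
    isOpen_biUnion fun B' _ => nb_open h S B'
  have hcov : ((fun w : ℝ × ℝ => pt w.1 w.2 c) '' T) ⊆
      {x | Nb h S x B} ∪ (⋃ B' ∈ {B' : Set E3 | B' ≠ B}, {x | Nb h S x B'}) := by
    rintro _ ⟨w, hw, rfl⟩
    obtain ⟨B', hB'⟩ := hex w hw
    by_cases hBB : B' = B
    · left; rw [← hBB]; exact hB'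
    · right
      rw [mem_iUnion₂]
      exact ⟨B', hBB, hB'⟩
  obtain ⟨B1, hB1⟩ := hex w1 hw1
  have hne : B1 ≠ B := by
    rintro rfl
    exact hn hB1
  obtain ⟨x, ⟨w, hw, hwx⟩, hx1, hx2⟩ := hTi _ _ (nb_open h S B) hO2 hcov
    ⟨_, mem_image_of_mem _ hw0, hB⟩ ⟨_, mem_image_of_mem _ hw1, by
      rw [mem_iUnion₂]
      exact ⟨B1, hne, hB1⟩⟩
  rw [mem_iUnion₂] at hx2
  obtain ⟨B2, hB2, hx2⟩ := hx2
  apply hB2
  have hwx' : pt w.1 w.2 c = x := hwx
  exact nb_unique hcpt h h0 S hS x (by rw [← hwx', pt_two]; exact hc0)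
    (by rw [← hwx', pt_two]; exact hc1) B2 B hx2 hx1

private lemma rad_pt (t s z : ℝ) (ht : 0 ≤ t) : rad (pt (t * Real.cos s) (t * Real.sin s) z) = t := by
  unfold rad
  rw [pt_zero, pt_one]
  have : (t * Real.cos s) ^ 2 + (t * Real.sin s) ^ 2 = t ^ 2 := by
    have := Real.cos_sq_add_sin_sq s
    nlinarith
  rw [this, Real.sqrt_sq ht]

private lemma far_preconnected (h R : ℝ) (hR : 0 ≤ R) :
    IsPreconnected {x : E3 | x ∈ Sl h ∧ R < rad x} := by
  have hcv : Convex ℝ (Ioi R ×ˢ ((univ : Set ℝ) ×ˢ Ioo 0 h)) :=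
    (convex_Ioi R).prod (convex_univ.prod (convex_Ioo 0 h))
  have hf : Continuous (fun q : ℝ × ℝ × ℝ =>
      pt (q.1 * Real.cos q.2.1) (q.1 * Real.sin q.2.1) q.2.2) := by
    unfold pt
    fun_prop
  have hi := hcv.isPreconnected.image _ hf.continuousOn
  have he : (fun q : ℝ × ℝ × ℝ => pt (q.1 * Real.cos q.2.1) (q.1 * Real.sin q.2.1) q.2.2) ''
      (Ioi R ×ˢ ((univ : Set ℝ) ×ˢ Ioo 0 h)) = {x : E3 | x ∈ Sl h ∧ R < rad x} := by
    ext x
    constructor
    · rintro ⟨⟨t, s, z⟩, ⟨ht, -, hz⟩, rfl⟩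
      refine ⟨⟨?_, ?_⟩, ?_⟩
      · show 0 < pt _ _ _ 2
        rw [pt_two]; exact hz.1
      · show pt _ _ _ 2 < h
        rw [pt_two]; exact hz.2
      · show R < rad (pt (t * Real.cos s) (t * Real.sin s) z)
        rw [rad_pt t s z (hR.trans (le_of_lt ht))]
        exact ht
    · rintro ⟨hx, hr⟩
      have hz : (⟨x 0, x 1⟩ : ℂ) ≠ 0 := by
        intro h0
        have h1 : x 0 = 0 := congrArg Complex.re h0
        have h2 : x 1 = 0 := congrArg Complex.im h0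
        have : rad x = 0 := by
          unfold rad
          rw [h1, h2]
          simp
        linarith
      have hn : ‖(⟨x 0, x 1⟩ : ℂ)‖ = rad x := by
        rw [Complex.norm_def, Complex.normSq_mk]
        unfold rad
        congr 1
        ring
      have hpos : 0 < rad x := lt_of_le_of_lt hR hr
      refine ⟨(rad x, Complex.arg ⟨x 0, x 1⟩, x 2), ⟨hr, mem_univ _, hx⟩, ?_⟩
      show pt (rad x * Real.cos _) (rad x * Real.sin _) (x 2) = x
      rw [Complex.cos_arg hz, Complex.sin_arg, hn]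
      have e1 : rad x * ((⟨x 0, x 1⟩ : ℂ).re / rad x) = x 0 := by
        field_simp
      have e2 : rad x * ((⟨x 0, x 1⟩ : ℂ).im / rad x) = x 1 := by
        field_simp
      rw [e1, e2, pt_eta]
  rw [← he]
  exact hi

private lemma rad_le_norm (x : E3) : rad x ≤ ‖x‖ := by
  rw [EuclideanSpace.norm_eq, Fin.sum_univ_three]
  unfold rad
  apply Real.sqrt_le_sqrt
  simp only [Real.norm_eq_abs, sq_abs]
  nlinarith [sq_nonneg (x 2)]

/-- CCL (the other components) -/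
theorem hCCW : StCPT → StCLO → StCCW := by
  intro hcpt hclo K0 K1 h S h0 hc0 hc1 hmps hsl
  have hS : IsClosed S := hmps.cpt.isClosed
  obtain ⟨p1, p2, p3, p4⟩ := hcpt h S hS
  obtain ⟨q1, q2, q3, -⟩ := hclo K0 hc0
  obtain ⟨s1, s2, s3, -⟩ := hclo K1 hc1
  -- points of the boundary planes in `S`
  have hS0 : ∀ x : E3, x 2 = 0 → x ∈ S → (x 0, x 1) ∈ frontier K0 := by
    intro x hx hxS
    by_cases hG : x ∈ Gm K0 K1 h
    · rcases hG with hG | hG
      · exact hG.1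
      · exfalso
        have := hG.2
        linarith
    · exfalso
      have := (hsl x hxS hG).1
      linarith
  have hS1 : ∀ x : E3, x 2 = h → x ∈ S → (x 0, x 1) ∈ frontier K1 := by
    intro x hx hxS
    by_cases hG : x ∈ Gm K0 K1 h
    · rcases hG with hG | hG
      · exfalso
        have := hG.2
        linarith
      · exact hG.1
    · exfalso
      have := (hsl x hxS hG).2
      linarith
  have f0 : ∀ w : ℝ × ℝ, w ∉ frontier K0 → pt w.1 w.2 0 ∉ S := by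
    intro w hw hwS
    have := hS0 _ (pt_two _ _ _) hwS
    rw [pt_zero, pt_one] at this
    exact hw this
  have f1 : ∀ w : ℝ × ℝ, w ∉ frontier K1 → pt w.1 w.2 h ∉ S := by
    intro w hw hwS
    have := hS1 _ (pt_two _ _ _) hwS
    rw [pt_zero, pt_one] at this
    exact hw this
  have g0 : ∀ w ∈ interior K0, w ∉ frontier K0 := fun w hw hw' => by
    rw [q3] at hw'
    exact hw'.2 hw
  have g1 : ∀ w ∈ interior K1, w ∉ frontier K1 := fun w hw hw' => by
    rw [s3] at hw'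
    exact hw'.2 hw
  have c0 : ∀ w ∈ K0ᶜ, w ∉ frontier K0 := fun w hw hw' => by
    rw [q3] at hw'
    exact hw hw'.1
  have c1 : ∀ w ∈ K1ᶜ, w ∉ frontier K1 := fun w hw hw' => by
    rw [s3] at hw'
    exact hw hw'.1
  -- the three components
  obtain ⟨o0, ho0⟩ := hc0.2.2
  obtain ⟨o1, ho1⟩ := hc1.2.2
  obtain ⟨B0, hB0⟩ := nb_exists hcpt h h0 S hS (pt o0.1 o0.2 0) (by rw [pt_two])
    (by rw [pt_two]; exact h0.le) (f0 _ (g0 _ ho0))
  obtain ⟨B1, hB1⟩ := nb_exists hcpt h h0 S hS (pt o1.1 o1.2 h) (by rw [pt_two]; exact h0.le)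
    (by rw [pt_two]) (f1 _ (g1 _ ho1))
  have hA0 := nb_const hcpt h h0 S hS (interior K0) q2 0 le_rfl h0.le (fun w hw => f0 _ (g0 _ hw))
    o0 ho0 B0 hB0
  have hA1 := nb_const hcpt h h0 S hS (interior K1) s2 h h0.le le_rfl (fun w hw => f1 _ (g1 _ hw))
    o1 ho1 B1 hB1
  -- far away
  obtain ⟨R, hR0, hRS, hRK0, hRK1⟩ : ∃ R : ℝ, 0 ≤ R ∧ (∀ x ∈ S, rad x ≤ R) ∧
      (∀ w ∈ K0, w.1 ≤ R) ∧ ∀ w ∈ K1, w.1 ≤ R := by
    obtain ⟨R1, hR1⟩ := hmps.cpt.isBounded.exists_norm_le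
    obtain ⟨R2, hR2⟩ := hc0.1.isBounded.exists_norm_le
    obtain ⟨R3, hR3⟩ := hc1.1.isBounded.exists_norm_le
    refine ⟨max 0 (max R1 (max R2 R3)), le_max_left _ _, ?_, ?_, ?_⟩
    · intro x hx
      exact (rad_le_norm x).trans ((hR1 x hx).trans ((le_max_left _ _).trans (le_max_right _ _)))
    · intro w hw
      have h1 : w.1 ≤ ‖w‖ := (le_abs_self _).trans (norm_fst_le w)
      exact h1.trans ((hR2 w hw).trans ((le_max_left _ _).trans
        ((le_max_right _ _).trans (le_max_right _ _))))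
    · intro w hw
      have h1 : w.1 ≤ ‖w‖ := (le_abs_self _).trans (norm_fst_le w)
      exact h1.trans ((hR3 w hw).trans ((le_max_right _ _).trans
        ((le_max_right _ _).trans (le_max_right _ _))))
  have hWc := far_preconnected h R hR0
  have hWS : {x : E3 | x ∈ Sl h ∧ R < rad x} ⊆ Sl h \ S := by
    rintro x ⟨hx1, hx2⟩
    exact ⟨hx1, fun hxS => absurd (hRS x hxS) (not_le.2 hx2)⟩
  have hrad : ∀ z : ℝ, rad (pt (R + 1) 0 z) = R + 1 := by
    intro z
    have := rad_pt (R + 1) 0 z (by linarith)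
    rwa [Real.cos_zero, Real.sin_zero, mul_one, mul_zero] at this
  have hW0 : pt (R + 1) 0 (h / 2) ∈ {x : E3 | x ∈ Sl h ∧ R < rad x} := by
    refine ⟨⟨?_, ?_⟩, ?_⟩
    · rw [pt_two]; linarith
    · rw [pt_two]; linarith
    · rw [hrad]; linarith
  obtain ⟨B2, hB2, hB2m⟩ := p1 _ (hWS hW0)
  have hWB : {x : E3 | x ∈ Sl h ∧ R < rad x} ⊆ B2 :=
    (p2 B2 hB2).2.2.2.2 _ hWc hWS ⟨_, hB2m, hW0⟩
  -- the component at a point over the complement, at distance `R + 1`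
  have key : ∀ c : ℝ, 0 ≤ c → c ≤ h → Nb h S (pt (R + 1) 0 c) B2 := by
    intro c hc0 hc1
    refine ⟨hB2, 1 / 2, by norm_num, ?_⟩
    intro y hy hyd
    apply hWB
    refine ⟨hy, ?_⟩
    -- `rad` is bounded below by the first coordinate
    have h1 : |y 0 - (R + 1)| ≤ dist y (pt (R + 1) 0 c) := by
      have := PiLp.norm_apply_le (y - pt (R + 1) 0 c) 0
      rw [PiLp.sub_apply, pt_zero, Real.norm_eq_abs] at this
      rwa [dist_eq_norm]
    have h2 : R < y 0 := by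
      have := (abs_lt.1 (lt_of_le_of_lt h1 hyd)).1
      linarith
    have h3 : y 0 ≤ rad y := by
      unfold rad
      apply Real.le_sqrt_of_sq_le
      nlinarith [sq_nonneg (y 1)]
    linarith
  have hmem0 : ((R + 1, 0) : ℝ × ℝ) ∈ K0ᶜ := by
    intro hmem
    have := hRK0 _ hmem
    simp only at this
    linarith
  have hmem1 : ((R + 1, 0) : ℝ × ℝ) ∈ K1ᶜ := by
    intro hmem
    have := hRK1 _ hmem
    simp only at this
    linarith
  have hA2 := nb_const hcpt h h0 S hS K0ᶜ q1 0 le_rfl h0.le (fun w hw => f0 _ (c0 _ hw))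
    (R + 1, 0) hmem0 B2 (key 0 le_rfl h0.le)
  have hA3 := nb_const hcpt h h0 S hS K1ᶜ s1 h h0.le le_rfl (fun w hw => f1 _ (c1 _ hw))
    (R + 1, 0) hmem1 B2 (key h h0.le le_rfl)
  -- restated for points of `E3`
  have eta0 : ∀ x : E3, x 2 = 0 → pt ((x 0, x 1) : ℝ × ℝ).1 ((x 0, x 1) : ℝ × ℝ).2 0 = x := by
    intro x hx
    have := pt_eta x
    rw [hx] at this
    exact this
  have eta1 : ∀ x : E3, x 2 = h → pt ((x 0, x 1) : ℝ × ℝ).1 ((x 0, x 1) : ℝ × ℝ).2 h = x := by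
    intro x hx
    have := pt_eta x
    rw [hx] at this
    exact this
  have r0 : ∀ x : E3, (x 0, x 1) ∈ interior K0 → x 2 = 0 → Nb h S x B0 := by
    intro x hx hx2
    have := hA0 _ hx
    rwa [eta0 x hx2] at this
  have r1 : ∀ x : E3, (x 0, x 1) ∈ interior K1 → x 2 = h → Nb h S x B1 := by
    intro x hx hx2
    have := hA1 _ hx
    rwa [eta1 x hx2] at this
  have r2 : ∀ x : E3, (x 0, x 1) ∉ K0 → x 2 = 0 → Nb h S x B2 := by
    intro x hx hx2
    have := hA2 _ hx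
    rwa [eta0 x hx2] at this
  have r3 : ∀ x : E3, (x 0, x 1) ∉ K1 → x 2 = h → Nb h S x B2 := by
    intro x hx hx2
    have := hA3 _ hx
    rwa [eta1 x hx2] at this
  refine ⟨![B0, B1, B2], ?_, ?_, ?_, ?_, ?_, R, ?_⟩
  · intro i
    fin_cases i
    · exact hB0.1
    · exact hB1.1
    · exact hB2
  · intro B hB
    by_cases hfr : frontier B ⊆ S
    · exact Or.inl hfr
    · right
      rw [not_subset] at hfr
      obtain ⟨x, hxf, hxS⟩ := hfr
      obtain ⟨b1, b2, b3, b4, b5⟩ := p2 B hB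
      have hxsl : x ∉ Sl h := fun hx => hxS (b4 x hxf hx)
      have hxcl : x ∈ closure B := frontier_subset_closure hxf
      have hle : 0 ≤ x 2 ∧ x 2 ≤ h := by
        have hcl : IsClosed {y : E3 | 0 ≤ y 2 ∧ y 2 ≤ h} := by
          have hc : Continuous (fun y : E3 => y 2) := by fun_prop
          exact (isClosed_le continuous_const hc).inter (isClosed_le hc continuous_const)
        have hsub : B ⊆ {y : E3 | 0 ≤ y 2 ∧ y 2 ≤ h} := fun y hy =>
          ⟨(b3 hy).1.1.le, (b3 hy).1.2.le⟩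
        exact (closure_minimal hsub hcl) hxcl
      -- any half ball component at `x` is `B`
      have hend : ∀ B', Nb h S x B' → B = B' := by
        rintro B' ⟨hB', r, hr, hb⟩
        obtain ⟨y, hyB, hyd⟩ := Metric.mem_closure_iff.1 hxcl r hr
        rw [dist_comm] at hyd
        exact p3 B B' hB hB' ⟨y, hyB, hb y (b3 hyB).1 hyd⟩
      have hcase : x 2 = 0 ∨ x 2 = h := by
        by_contra hcon
        push Not at hcon
        exact hxsl ⟨lt_of_le_of_ne hle.1 (Ne.symm hcon.1), lt_of_le_of_ne hle.2 hcon.2⟩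
      rcases hcase with hx2 | hx2
      · by_cases hK : (x 0, x 1) ∈ K0
        · have hint : (x 0, x 1) ∈ interior K0 := by
            by_contra hni
            apply hxS
            apply hmps.sub
            left
            refine ⟨?_, hx2⟩
            rw [q3]
            exact ⟨hK, hni⟩
          exact ⟨0, hend _ (r0 x hint hx2)⟩
        · exact ⟨2, hend _ (r2 x hK hx2)⟩
      · by_cases hK : (x 0, x 1) ∈ K1
        · have hint : (x 0, x 1) ∈ interior K1 := by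
            by_contra hni
            apply hxS
            apply hmps.sub
            right
            refine ⟨?_, hx2⟩
            rw [s3]
            exact ⟨hK, hni⟩
          exact ⟨1, hend _ (r1 x hint hx2)⟩
        · exact ⟨2, hend _ (r3 x hK hx2)⟩
  · intro x hx hx2
    exact (r0 x hx hx2).2
  · intro x hx hx2
    exact (r1 x hx hx2).2
  · rintro x (⟨hx, hx2⟩ | ⟨hx, hx2⟩)
    · exact (r2 x hx hx2).2
    · exact (r3 x hx hx2).2
  · intro y hy hyR
    exact hWB ⟨hy, hyR⟩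

end Pool.Agent.Helper69.MC.WC
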