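import Pool.Agent.Helper69.MC.StW

/-!
# Project MC (MP_9583f0_gt), module MCF: the final statement on the cells
-/

set_option autoImplicit false

open Set Topology Filter MeasureTheory
open Pool.Agent.Helper31.CY Pool.Agent.Helper69.MF Pool.Agent.Helper69.MC

namespace Pool.Agent.Helper69.MC.WM

/-- the index of the component which contains a local component is an injective function -/
theorem sigma_exists {h : ℝ} {S : Set E3} (hS : IsClosed S) (hCPT : StCPT) {A : Fin 3 → Set E3}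
    (hA : ∀ B, Cmp h S B → ∃ i, B = A i) (hA' : ∀ i, Cmp h S (A i))
    {p : E3} {m : ℕ} {ρ0 : ℝ} {L : Fin m → Set E3} (hL : Loc S m p ρ0 L)
    (hb : Metric.ball p ρ0 ⊆ Sl h)
    (hj : ∀ i j, i ≠ j → ∀ x ∈ Metric.ball p ρ0 ∩ L i,
      ∀ y ∈ Metric.ball p ρ0 ∩ L j, ¬ JoinedIn (Sl h \ S) x y) :
    ∃ σ : Fin m → Fin 3, (∀ k, Metric.ball p ρ0 ∩ L k ⊆ A (σ k)) ∧
      ∀ k l, k ≠ l → A (σ k) ≠ A (σ l) := by
  obtain ⟨c1, c2, c3, c4⟩ := hCPT h S hS
  obtain ⟨l0, l1, l2, l3, l4⟩ := hL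
  have key : ∀ k, ∃ i : Fin 3, Metric.ball p ρ0 ∩ L k ⊆ A i := by
    intro k
    have hpc := l2 ρ0 l0 le_rfl k
    obtain ⟨x, hx⟩ := hpc.nonempty
    have hsub : Metric.ball p ρ0 ∩ L k ⊆ Sl h \ S := by
      intro y hy
      exact ⟨hb hy.1, (l3 y hy.1).2 ⟨k, hy.2⟩⟩
    obtain ⟨B, hB, hxB⟩ := c1 x (hsub hx)
    obtain ⟨i, hi⟩ := hA B hB
    refine ⟨i, ?_⟩
    rw [← hi]
    exact (c2 B hB).2.2.2.2 _ hpc.isConnected.isPreconnected hsub ⟨x, hxB, hx⟩
  choose σ hσ using key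
  refine ⟨σ, hσ, ?_⟩
  intro k l hkl he
  obtain ⟨x, hx⟩ := (l2 ρ0 l0 le_rfl k).nonempty
  obtain ⟨y, hy⟩ := (l2 ρ0 l0 le_rfl l).nonempty
  apply hj k l hkl x hx y hy
  exact (c4 x y).2 ⟨A (σ k), hA' _, hσ k hx, he ▸ hσ l hy⟩

/-- MCF -/
theorem hMCW : StCPT → StCCW → StBUW → StLDW → StCNE → StRPL → StMCW := by
  intro hCPT hCCL hBUB hLDC hCNE hRPL K0 K1 h 𝒞 S hC hSing
  have hS : IsClosed S := hC.mps.cpt.isClosed
  obtain ⟨A, hA', hA0, a0, a1, a2, a3⟩ := hCCL K0 K1 h S hC.h0 hC.c0 hC.c1 hC.mps hC.sl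
  have hA : ∀ B, Cmp h S B → ∃ i, B = A i := by
    intro B hB
    rcases hA0 B hB with h1 | h1
    · exact absurd h1 (hBUB K0 K1 h 𝒞 S hC B hB)
    · exact h1
  obtain ⟨c1, c2, c3, c4⟩ := hCPT h S hS
  obtain ⟨nY, nT, nP, adP, adY, adT, -⟩ := hCNE
  -- no T points
  have hT : ∀ p ∈ S, p ∉ Gm K0 K1 h → ¬ ModelAt S Tcone p := by
    intro p hp hpG hM
    rw [← nT] at hM
    obtain ⟨ρ0, L, hL, hb, hj⟩ := hLDC K0 K1 h 𝒞 S hC p hp hpG 4 tv (by norm_num) adT hM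
    obtain ⟨σ, -, hσ⟩ := sigma_exists hS hCPT hA hA' hL hb hj
    have hinj : Function.Injective σ := by
      intro k l hkl
      by_contra hne
      exact hσ k l hne (by rw [hkl])
    have := Fintype.card_le_of_injective σ hinj
    simp at this
  -- the three sets are different
  have hdisj : ∀ i j, i ≠ j → Disjoint (A i) (A j) := by
    obtain ⟨p, hp, hpG, hM⟩ := hSing
    have hM : ModelAt S (Cn vY) p := by
      rcases hM with hM | hM
      · rw [nY]; exact hM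
      · exact absurd hM (hT p hp hpG)
    obtain ⟨ρ0, L, hL, hb, hj⟩ := hLDC K0 K1 h 𝒞 S hC p hp hpG 3 vY (by norm_num) adY hM
    obtain ⟨σ, -, hσ⟩ := sigma_exists hS hCPT hA hA' hL hb hj
    have hinj : Function.Injective σ := by
      intro k l hkl
      by_contra hne
      exact hσ k l hne (by rw [hkl])
    have hsur : Function.Surjective σ := Finite.surjective_of_injective hinj
    intro i j hij
    obtain ⟨k, rfl⟩ := hsur i
    obtain ⟨l, rfl⟩ := hsur j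
    have hkl : k ≠ l := fun e => hij (by rw [e])
    rw [Set.disjoint_iff_inter_eq_empty, ← Set.not_nonempty_iff_eq_empty]
    intro hne
    exact hσ k l hkl (c3 _ _ (hA' _) (hA' _) hne)
  -- local data at every point
  have hloc : ∀ p ∈ S, p ∉ Gm K0 K1 h → ∃ (m : ℕ) (ρ0 : ℝ) (L : Fin m → Set E3), Loc S m p ρ0 L ∧
      Metric.ball p ρ0 ⊆ Sl h ∧ ∀ i j, i ≠ j → ∀ x ∈ Metric.ball p ρ0 ∩ L i,
        ∀ y ∈ Metric.ball p ρ0 ∩ L j, ¬ JoinedIn (Sl h \ S) x y := by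
    intro p hp hpG
    rcases hC.mps.int p hp hpG with hM | hM | hM
    · exact ⟨2, hLDC K0 K1 h 𝒞 S hC p hp hpG 2 vP (by norm_num) adP (hRPL S p hp hM)⟩
    · rw [← nY] at hM
      exact ⟨3, hLDC K0 K1 h 𝒞 S hC p hp hpG 3 vY (by norm_num) adY hM⟩
    · exact absurd hM (hT p hp hpG)
  refine ⟨hT, A, fun i => ⟨(c2 _ (hA' i)).1, (c2 _ (hA' i)).2.1⟩, hdisj, ?_, ?_, a0, a1, a2, a3⟩
  · ext x
    rw [Set.mem_iUnion]
    constructor
    · rintro ⟨i, hi⟩
      exact (c2 _ (hA' i)).2.2.1 hi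
    · intro hx
      obtain ⟨B, hB, hxB⟩ := c1 x hx
      obtain ⟨i, hi⟩ := hA B hB
      exact ⟨i, hi ▸ hxB⟩
  · intro p hp hpG
    obtain ⟨m, ρ0, L, ⟨l0, l1, l2, l3, l4⟩, hb, hj⟩ := hloc p hp hpG
    refine ⟨ρ0, l0, hb, ?_⟩
    intro ρ' h0 h1 i
    rcases Set.eq_empty_or_nonempty (Metric.ball p ρ' ∩ A i) with he | ⟨x, hx⟩
    · rw [he]
      exact isPreconnected_empty
    · have hballs : Metric.ball p ρ' ⊆ Metric.ball p ρ0 := Metric.ball_subset_ball h1.le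
      have hxS : x ∉ S := ((c2 _ (hA' i)).2.2.1 hx.2).2
      obtain ⟨k, hk⟩ := (l3 x (hballs hx.1)).1 hxS
      have hpc := l2 ρ' h0 h1.le k
      have heq : Metric.ball p ρ' ∩ A i = Metric.ball p ρ' ∩ L k := by
        apply Set.Subset.antisymm
        · intro y hy
          have hyS : y ∉ S := ((c2 _ (hA' i)).2.2.1 hy.2).2
          obtain ⟨l, hl⟩ := (l3 y (hballs hy.1)).1 hyS
          refine ⟨hy.1, ?_⟩
          by_cases hlk : l = k
          · rw [← hlk]; exact hl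
          · exfalso
            exact hj l k hlk y ⟨hballs hy.1, hl⟩ x ⟨hballs hx.1, hk⟩
              ((c4 y x).2 ⟨A i, hA' i, hy.2, hx.2⟩)
        · intro y hy
          refine ⟨hy.1, ?_⟩
          have hsub : Metric.ball p ρ' ∩ L k ⊆ Sl h \ S := by
            intro z hz
            exact ⟨hb (hballs hz.1), (l3 z (hballs hz.1)).2 ⟨k, hz.2⟩⟩
          exact (c2 _ (hA' i)).2.2.2.2 _ hpc.isConnected.isPreconnected hsub
            ⟨x, hx.2, hx.1, hk⟩ hy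
      rw [heq]
      exact hpc.isConnected.isPreconnected

end Pool.Agent.Helper69.MC.WM
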