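import Pool.Agent.Helper69.MC.StW

set_option autoImplicit false

namespace Pool.Agent.Helper69.MC.WL

open Set Topology Filter MeasureTheory
open Pool.Agent.Helper31.CY Pool.Agent.Helper69.MF Pool.Agent.Helper69.MC

theorem loc_shrink {S : Set E3} {m : ℕ} {p : E3} {ρ0 ρ1 : ℝ} {L : Fin m → Set E3}
    (hL : Loc S m p ρ0 L) (h1 : 0 < ρ1) (h2 : ρ1 ≤ ρ0) : Loc S m p ρ1 L := by
  obtain ⟨_, ho, hp, hs, hd⟩ := hL
  refine ⟨h1, ?_, ?_, ?_, hd⟩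
  · intro i
    have : Metric.ball p ρ1 ∩ L i = Metric.ball p ρ1 ∩ (Metric.ball p ρ0 ∩ L i) := by
      ext x
      simp only [mem_inter_iff]
      constructor
      · rintro ⟨hx, hy⟩
        exact ⟨hx, Metric.ball_subset_ball h2 hx, hy⟩
      · rintro ⟨hx, _, hy⟩
        exact ⟨hx, hy⟩
    rw [this]
    exact Metric.isOpen_ball.inter (ho i)
  · intro ρ hρ hρ1 i
    exact hp ρ hρ (hρ1.trans h2) i
  · intro x hx
    exact hs x (Metric.ball_subset_ball h2 hx)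

theorem isOpen_Sl (h : ℝ) : IsOpen (Sl h) := by
  have hc : Continuous fun x : E3 => x 2 := by fun_prop
  have : Sl h = (fun x : E3 => x 2) ⁻¹' Ioo 0 h := by
    ext x; simp [Sl]
  rw [this]
  exact isOpen_Ioo.preimage hc

theorem not_Gm {K0 K1 : Set (ℝ × ℝ)} {h : ℝ} {x : E3} (hx : x ∈ Sl h) : x ∉ Gm K0 K1 h := by
  obtain ⟨h1, h2⟩ := hx
  rintro (⟨_, h3⟩ | ⟨_, h3⟩)
  · linarith
  · linarith

theorem hLDW : StFRW → StLCC → StFRG → StRPL → StCNE → StLDW := by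
  intro FRM LCC FRG RPL CNE K0 K1 h 𝒞 S ctx p hp hpG m v hm hv hmod
  have hpSl : p ∈ Sl h := ctx.sl p hp hpG
  obtain ⟨ρ0, L, hL, hadj⟩ := LCC S m v p hm hv hmod
  obtain ⟨ε, hε, hεs⟩ := Metric.isOpen_iff.1 (isOpen_Sl h) p hpSl
  have hρ1 : 0 < min ρ0 ε := lt_min hL.1 hε
  have hL1 : Loc S m p (min ρ0 ε) L := loc_shrink hL hρ1 (min_le_left _ _)
  have hsub : Metric.ball p (min ρ0 ε) ⊆ Sl h :=
    (Metric.ball_subset_ball (min_le_right _ _)).trans hεs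
  generalize min ρ0 ε = ρ1 at hρ1 hL1 hsub
  refine ⟨ρ1, L, hL1, hsub, ?_⟩
  intro i j hij x hx y hy hjoin
  obtain ⟨q, hqS, hqp, hN, hq⟩ := hadj i j hij ρ1 hρ1
  have hqb : q ∈ Metric.ball p ρ1 := hqp
  have hqSl : q ∈ Sl h := hsub hqb
  have hqG : q ∉ Gm K0 K1 h := not_Gm hqSl
  have hreg : RegP S q := FRG S _ ctx.mps q hqS hqG hN
  have hmq : ModelAt S (Cn vP) q := RPL S q hqS hreg
  have hvP : Adj vP := CNE.2.2.2.1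
  obtain ⟨ρ2, L', hL', _⟩ := LCC S 2 vP q (by norm_num) hvP hmq
  obtain ⟨δ, hδ, hδs⟩ := Metric.isOpen_iff.1 Metric.isOpen_ball q hqb
  have hρ3 : 0 < min ρ2 δ := lt_min hL'.1 hδ
  have hL3 : Loc S 2 q (min ρ2 δ) L' := loc_shrink hL' hρ3 (min_le_left _ _)
  have hsub3 : Metric.ball q (min ρ2 δ) ⊆ Metric.ball p ρ1 :=
    (Metric.ball_subset_ball (min_le_right _ _)).trans hδs
  generalize min ρ2 δ = ρ3 at hρ3 hL3 hsub3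
  obtain ⟨⟨x', hx'b, hx'L⟩, ⟨y', hy'b, hy'L⟩⟩ := hq ρ3 hρ3
  have hx'p := hsub3 hx'b
  have hy'p := hsub3 hy'b
  obtain ⟨_, hLo, hLp, hLs, hLd⟩ := hL1
  have hL3' := hL3
  obtain ⟨_, hMo, hMp, hMs, hMd⟩ := hL3'
  have hx'S : x' ∉ S := (hLs x' hx'p).2 ⟨i, hx'L⟩
  have hy'S : y' ∉ S := (hLs y' hy'p).2 ⟨j, hy'L⟩
  obtain ⟨a, ha⟩ := (hMs x' hx'b).1 hx'S
  obtain ⟨b, hb⟩ := (hMs y' hy'b).1 hy'S
  have hsubS : ∀ k, Metric.ball p ρ1 ∩ L k ⊆ Sl h \ S := by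
    rintro k z ⟨hz1, hz2⟩
    exact ⟨hsub hz1, (hLs z hz1).2 ⟨k, hz2⟩⟩
  have hab : a ≠ b := by
    rintro rfl
    have hconn : IsPreconnected (Metric.ball q ρ3 ∩ L' a) :=
      (hMp ρ3 hρ3 le_rfl a).isConnected.isPreconnected
    have ho1 : IsOpen (Metric.ball p ρ1 ∩ L i) := hLo i
    have ho2 : IsOpen (⋃ k : {k : Fin m // k ≠ i}, Metric.ball p ρ1 ∩ L k.1) :=
      isOpen_iUnion fun k => hLo k.1
    have hcov : Metric.ball q ρ3 ∩ L' a ⊆ (Metric.ball p ρ1 ∩ L i) ∪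
        ⋃ k : {k : Fin m // k ≠ i}, Metric.ball p ρ1 ∩ L k.1 := by
      rintro z ⟨hz1, hz2⟩
      have hzp := hsub3 hz1
      have hzS : z ∉ S := (hMs z hz1).2 ⟨a, hz2⟩
      obtain ⟨k, hk⟩ := (hLs z hzp).1 hzS
      by_cases hki : k = i
      · left
        rw [hki] at hk
        exact ⟨hzp, hk⟩
      · right
        exact mem_iUnion.2 ⟨⟨k, hki⟩, hzp, hk⟩
    obtain ⟨z, _, ⟨_, hz1⟩, hz2⟩ := hconn _ _ ho1 ho2 hcov ⟨x', ⟨hx'b, ha⟩, hx'p, hx'L⟩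
      ⟨y', ⟨hy'b, hb⟩, mem_iUnion.2 ⟨⟨j, fun e => hij e.symm⟩, hy'p, hy'L⟩⟩
    obtain ⟨⟨k, hk⟩, _, hz3⟩ := mem_iUnion.1 hz2
    exact (Set.disjoint_left.1 (hLd i k (fun e => hk e.symm)) hz1) hz3
  have hj1 : JoinedIn (Sl h \ S) x' x :=
    ((hLp ρ1 hρ1 le_rfl i).joinedIn x' ⟨hx'p, hx'L⟩ x hx).mono (hsubS i)
  have hj2 : JoinedIn (Sl h \ S) y y' :=
    ((hLp ρ1 hρ1 le_rfl j).joinedIn y hy y' ⟨hy'p, hy'L⟩).mono (hsubS j)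
  exact FRM K0 K1 h 𝒞 S ctx q hqS hreg ρ3 L' hL3 (hsub3.trans hsub) a b hab x' ⟨hx'b, ha⟩ y'
    ⟨hy'b, hb⟩ ((hj1.trans hjoin).trans hj2)

end Pool.Agent.Helper69.MC.WL
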